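import Pool.Agent.R823.CC.Final

/-!
MP_975ab8_al, Q1, case `gcd(n,q) = 1`: the number of `n × n` circulant matrices with a given
determinant over a finite chain ring.
-/

set_option autoImplicit false

namespace Pool.Agent.Results.MP_975ab8_al.CoprimeCount

open Pool.Agent.R823.CC

universe u

/-- Let `R` be a finite chain ring with maximal ideal `γR`, nilpotency index `e` and residue field
of `q` elements, `n ≥ 1` coprime to `q`. Explicit values of `c_n(R,a)` for all `a`. -/
theorem result (R : Type u) [CommRing R] [Finite R] [Nontrivial R]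
    (hchain : ∀ I J : Ideal R, I ≤ J ∨ J ≤ I) (γ : R) (hγ : (Ideal.span {γ}).IsMaximal)
    (e : ℕ) (he : γ ^ e = 0) (hmin : ∀ k < e, γ ^ k ≠ 0) (q : ℕ)
    (hq : Nat.card (R ⧸ Ideal.span {γ}) = q) (n : ℕ) (hn : 0 < n) (hcop : Nat.Coprime n q) :
    (∀ s < e, ∀ b : R, IsUnit b →
      (circCount R n (γ ^ s * b) : ℚ) =
        (q : ℚ) ^ (e * (n - 1)) *
          (∏ d ∈ n.divisors.erase 1,
            (1 - 1 / (q : ℚ) ^ (orderOf (q : ZMod d))) ^
              (Nat.totient d / orderOf (q : ZMod d))) * P n q s) ∧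
    (circCount R n (0 : R) : ℚ) = (q : ℚ) ^ (n * e) -
      ∑ s ∈ Finset.range e, ((q : ℚ) ^ (e - s) - (q : ℚ) ^ (e - s - 1)) *
        ((q : ℚ) ^ (e * (n - 1)) *
          (∏ d ∈ n.divisors.erase 1,
            (1 - 1 / (q : ℚ) ^ (orderOf (q : ZMod d))) ^
              (Nat.totient d / orderOf (q : ZMod d))) * P n q s) :=
  main R hchain γ hγ e he hmin q hq n hn hcop

end Pool.Agent.Results.MP_975ab8_al.CoprimeCount
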